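import Mathlib

set_option autoImplicit false
set_option linter.unusedSectionVars false

namespace Pool.Agent.T6.H76.TreeMu.PathDecompositions

open Finset

/-- Every finite set `S` of vertices inducing a perfect matching of `G`, all of whose edges
have an end in `bag`, has at most `2 * k` elements: the induced matching number of the bag
is at most `k`. -/
def MuLe {V : Type} (G : SimpleGraph V) (bag : V → Prop) (k : ℕ) : Prop :=
  ∀ S : Finset V,
    (∀ v ∈ S, ∃! u : V, u ∈ S ∧ G.Adj v u) →
    (∀ v ∈ S, ∃ u ∈ S, G.Adj v u ∧ (bag v ∨ bag u)) →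
    S.card ≤ 2 * k

/-- `G` has a path decomposition all of whose bags have induced matching number at most
`k`. -/
def HasPathMuLe {V : Type} (G : SimpleGraph V) (k : ℕ) : Prop :=
  ∃ n : ℕ, ∃ bag : Fin n → Finset V,
    (∀ v : V, ∃ i : Fin n, v ∈ bag i) ∧
    (∀ u v : V, G.Adj u v → ∃ i : Fin n, u ∈ bag i ∧ v ∈ bag i) ∧
    (∀ v : V, ∀ i j m : Fin n, i ≤ m → m ≤ j → v ∈ bag i → v ∈ bag j → v ∈ bag m) ∧
    (∀ i : Fin n, MuLe G (fun v => v ∈ bag i) k)

variable {V : Type} [DecidableEq V] (G : SimpleGraph V)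

/-- `A` can be properly coloured with colours below `m`. -/
def Col (A : Finset V) (m : ℕ) : Prop :=
  ∃ c : V → ℕ, (∀ v ∈ A, c v < m) ∧ ∀ u ∈ A, ∀ v ∈ A, G.Adj u v → c u ≠ c v

variable {G}

theorem Col.mono {A B : Finset V} {m n : ℕ} (h : Col G A m) (hAB : B ⊆ A) (hmn : m ≤ n) :
    Col G B n := by
  obtain ⟨c, h1, h2⟩ := h
  exact ⟨c, fun v hv => lt_of_lt_of_le (h1 v (hAB hv)) hmn,
    fun u hu v hv => h2 u (hAB hu) v (hAB hv)⟩

theorem Col.union {A B : Finset V} {m n : ℕ} (hA : Col G A m) (hB : Col G B n) :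
    Col G (A ∪ B) (m + n) := by
  classical
  obtain ⟨a, a1, a2⟩ := hA
  obtain ⟨b, b1, b2⟩ := hB
  refine ⟨fun v => if v ∈ A then a v else m + b v, ?_, ?_⟩
  · intro v hv
    by_cases hvA : v ∈ A
    · simp only [hvA, if_true]
      have := a1 v hvA
      omega
    · simp only [hvA, if_false]
      have hvB : v ∈ B := by
        rcases Finset.mem_union.1 hv with h | h
        · exact absurd h hvA
        · exact h
      have := b1 v hvB
      omega
  · intro u hu v hv huv
    by_cases hvA : v ∈ A <;> by_cases huA : u ∈ A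
    · simp only [hvA, huA, if_true]
      exact a2 u huA v hvA huv
    · simp only [hvA, huA, if_true, if_false]
      have := a1 v hvA
      omega
    · simp only [hvA, huA, if_true, if_false]
      have := a1 u huA
      omega
    · simp only [hvA, huA, if_false]
      have hvB : v ∈ B := by
        rcases Finset.mem_union.1 hv with h | h
        · exact absurd h hvA
        · exact h
      have huB : u ∈ B := by
        rcases Finset.mem_union.1 hu with h | h
        · exact absurd h huA
        · exact h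
      have := b2 u huB v hvB huv
      omega

theorem Col.biUnion (K : Finset V) (A : V → Finset V) (m : ℕ)
    (h : ∀ u ∈ K, Col G (A u) m) : Col G (K.biUnion A) (K.card * m) := by
  classical
  induction K using Finset.induction_on with
  | empty => exact ⟨fun _ => 0, by simp, by simp⟩
  | insert a s ha ih =>
    rw [Finset.biUnion_insert, Finset.card_insert_of_notMem ha]
    have h1 := h a (Finset.mem_insert_self a s)
    have h2 := ih (fun u hu => h u (Finset.mem_insert_of_mem hu))
    exact (h1.union h2).mono (Finset.Subset.refl _) (by ring_nf; omega)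

theorem Col.indep {A : Finset V} (h : ∀ u ∈ A, ∀ v ∈ A, ¬ G.Adj u v) : Col G A 1 :=
  ⟨fun _ => 0, fun _ _ => by norm_num, fun u hu v hv huv => absurd huv (h u hu v hv)⟩

/-- An interval model on `A`, with induced matching number at most `k` at each point and
cliques of size at most `w`. -/
structure Good (G : SimpleGraph V) (k w : ℕ) (A : Finset V) (l r : V → ℕ) : Prop where
  le : ∀ v ∈ A, l v ≤ r v
  adj : ∀ u ∈ A, ∀ v ∈ A, G.Adj u v → l u ≤ r v
  mu : ∀ i : ℕ, ∀ S : Finset V, S ⊆ A →
    (∀ v ∈ S, ∃! u : V, u ∈ S ∧ G.Adj v u) →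
    (∀ v ∈ S, ∃ u ∈ S, G.Adj v u ∧ ((l v ≤ i ∧ i ≤ r v) ∨ (l u ≤ i ∧ i ≤ r u))) →
    S.card ≤ 2 * k
  cl : ∀ s : Finset V, s ⊆ A → G.IsClique (s : Set V) → s.card ≤ w

theorem Good.sub {k w : ℕ} {A B : Finset V} {l r : V → ℕ} (h : Good G k w A l r)
    (hB : B ⊆ A) : Good G k w B l r :=
  ⟨fun v hv => h.le v (hB hv), fun u hu v hv => h.adj u (hB hu) v (hB hv),
    fun i S hS => h.mu i S (hS.trans hB), fun s hs => h.cl s (hs.trans hB)⟩

/-- The colour bounds. -/
def F : ℕ → ℕ → ℕ
  | 0, _ => 1
  | _ + 1, 0 => 0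
  | k + 1, w + 1 => F (k + 1) w + 3 * (1 + w * F k (w + 1))

theorem F_le (k w : ℕ) : F k w ≤ (3 * w ^ 2) ^ k := by
  induction k generalizing w with
  | zero => simp [F]
  | succ k ihk =>
    induction w with
    | zero => simp [F]
    | succ w ihw =>
      have h1 := ihk (w + 1)
      have hmono : (3 * w ^ 2) ^ k ≤ (3 * (w + 1) ^ 2) ^ k := by gcongr; omega
      have hpos : 1 ≤ (3 * (w + 1) ^ 2) ^ k := Nat.one_le_pow _ _ (by positivity)
      have e : F (k + 1) (w + 1) = F (k + 1) w + 3 * (1 + w * F k (w + 1)) := by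
        simp [F]
      rw [e]
      have h2 : F (k + 1) w ≤ (3 * (w + 1) ^ 2) ^ k * (3 * w ^ 2) := by
        calc F (k + 1) w ≤ (3 * w ^ 2) ^ (k + 1) := ihw
          _ = (3 * w ^ 2) ^ k * (3 * w ^ 2) := by rw [pow_succ]
          _ ≤ _ := Nat.mul_le_mul_right _ hmono
      have h3 : w * F k (w + 1) ≤ w * (3 * (w + 1) ^ 2) ^ k := Nat.mul_le_mul_left _ h1
      rw [pow_succ]
      generalize (3 * (w + 1) ^ 2) ^ k = B at *
      nlinarith

theorem pivot {k w : ℕ} {A : Finset V} {l r : V → ℕ} (h : Good G (k + 1) w A l r)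
    (IH : ∀ (A' : Finset V) (l' r' : V → ℕ), Good G k w A' l' r' → Col G A' (F k w))
    {v : V} {K : Finset V} (hK : K ⊆ A) (hKc : G.IsClique (K : Set V)) (hKw : K.card = w)
    (hv : v ∈ K) (S : Finset V) (hSA : S ⊆ A)
    (hS : ∀ x ∈ S, ¬ G.Adj x v ∧ x ≠ v ∧ l x ≤ r v ∧ l v ≤ r x) :
    Col G S (1 + (w - 1) * F k w) := by
  classical
  set B : Finset V := S.filter (fun x => ∀ u ∈ K.erase v, G.Adj x u) with hB
  have hcov : S ⊆ B ∪ (K.erase v).biUnion (fun u => S.filter (fun x => ¬ G.Adj x u)) := by
    intro x hx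
    by_cases hxB : ∀ u ∈ K.erase v, G.Adj x u
    · exact Finset.mem_union_left _ (Finset.mem_filter.2 ⟨hx, hxB⟩)
    · push Not at hxB
      obtain ⟨u, hu, hxu⟩ := hxB
      exact Finset.mem_union_right _
        (Finset.mem_biUnion.2 ⟨u, hu, Finset.mem_filter.2 ⟨hx, hxu⟩⟩)
  have hBcol : Col G B 1 := by
    apply Col.indep
    intro x hx y hy hxy
    have hx' := Finset.mem_filter.1 hx
    have hy' := Finset.mem_filter.1 hy
    have hyK : y ∉ K.erase v := fun hyK => G.irrefl (hy'.2 y hyK)
    have hxK : x ∉ insert y (K.erase v) := by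
      intro hh
      rcases Finset.mem_insert.1 hh with h1 | h1
      · exact G.ne_of_adj hxy h1
      · exact G.irrefl (hx'.2 x h1)
    have hcard : (insert x (insert y (K.erase v))).card = w + 1 := by
      rw [Finset.card_insert_of_notMem hxK, Finset.card_insert_of_notMem hyK,
        Finset.card_erase_of_mem hv, hKw]
      have : 1 ≤ K.card := Finset.card_pos.2 ⟨v, hv⟩
      omega
    have hsub : insert x (insert y (K.erase v)) ⊆ A := by
      intro z hz
      rcases Finset.mem_insert.1 hz with h1 | h1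
      · rw [h1]; exact hSA hx'.1
      · rcases Finset.mem_insert.1 h1 with h2 | h2
        · rw [h2]; exact hSA hy'.1
        · exact hK (Finset.mem_of_mem_erase h2)
    have hcl : G.IsClique ((insert x (insert y (K.erase v)) : Finset V) : Set V) := by
      rw [Finset.coe_insert, Finset.coe_insert, SimpleGraph.isClique_insert,
        SimpleGraph.isClique_insert]
      refine ⟨⟨?_, ?_⟩, ?_⟩
      · exact hKc.subset (by intro z hz; exact Finset.mem_of_mem_erase (Finset.mem_coe.1 hz))
      · intro z hz _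
        exact hy'.2 z (Finset.mem_coe.1 hz)
      · intro z hz _
        rcases hz with h1 | h1
        · rw [h1]; exact hxy
        · exact hx'.2 z (Finset.mem_coe.1 h1)
    have := h.cl _ hsub hcl
    omega
  have hAcol : ∀ u ∈ K.erase v, Col G (S.filter (fun x => ¬ G.Adj x u)) (F k w) := by
    intro u hu
    have huK : u ∈ K := Finset.mem_of_mem_erase hu
    have huv : u ≠ v := Finset.ne_of_mem_erase hu
    have hadj : G.Adj u v := hKc (Finset.mem_coe.2 huK) (Finset.mem_coe.2 hv) huv
    have hvA : v ∈ A := hK hv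
    have huA : u ∈ A := hK huK
    have hvle := h.le v hvA
    apply IH _ (fun x => max (l x) (l v)) (fun x => min (r x) (r v))
    have hmem : ∀ x ∈ S.filter (fun x => ¬ G.Adj x u), x ∈ S ∧ ¬ G.Adj x u :=
      fun x hx => Finset.mem_filter.1 hx
    refine ⟨?_, ?_, ?_, ?_⟩
    · intro x hx
      obtain ⟨hxS, -⟩ := hmem x hx
      obtain ⟨-, -, h3, h4⟩ := hS x hxS
      have h5 := h.le x (hSA hxS)
      simp only [le_min_iff, max_le_iff]
      exact ⟨⟨h5, h4⟩, ⟨h3, hvle⟩⟩
    · intro x hx y hy hxy
      obtain ⟨hxS, -⟩ := hmem x hx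
      obtain ⟨hyS, -⟩ := hmem y hy
      obtain ⟨-, -, h3, h4⟩ := hS x hxS
      obtain ⟨-, -, h5, h6⟩ := hS y hyS
      have h7 := h.adj x (hSA hxS) y (hSA hyS) hxy
      simp only [le_min_iff, max_le_iff]
      exact ⟨⟨h7, h6⟩, ⟨h3, hvle⟩⟩
    · intro i T hT hTm hTt
      rcases T.eq_empty_or_nonempty with he | ⟨z, hz⟩
      · rw [he]; simp
      · have hi : l v ≤ i ∧ i ≤ r v := by
          obtain ⟨z', -, -, h1⟩ := hTt z hz
          simp only [le_min_iff, max_le_iff] at h1
          rcases h1 with h1 | h1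
          · exact ⟨h1.1.2, h1.2.2⟩
          · exact ⟨h1.1.2, h1.2.2⟩
        have hTS : ∀ x ∈ T, x ∈ S ∧ ¬ G.Adj x u := fun x hx => hmem x (hT hx)
        have hvT : v ∉ T := fun hh => (hS v (hTS v hh).1).2.1 rfl
        have huT : u ∉ insert v T := by
          intro hh
          rcases Finset.mem_insert.1 hh with h1 | h1
          · exact huv h1
          · exact (hS u (hTS u h1).1).1 hadj
        have key := h.mu i (insert u (insert v T)) ?_ ?_ ?_
        · rw [Finset.card_insert_of_notMem huT, Finset.card_insert_of_notMem hvT] at key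
          omega
        · intro x hx
          rcases Finset.mem_insert.1 hx with h1 | h1
          · rw [h1]; exact huA
          · rcases Finset.mem_insert.1 h1 with h2 | h2
            · rw [h2]; exact hvA
            · exact hSA (hTS x h2).1
        · intro x hx
          rcases Finset.mem_insert.1 hx with h1 | h1
          · subst h1
            refine ⟨v, ⟨by simp, hadj⟩, ?_⟩
            rintro y ⟨hy, hxy⟩
            rcases Finset.mem_insert.1 hy with h2 | h2
            · exact absurd h2 (G.ne_of_adj hxy).symm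
            · rcases Finset.mem_insert.1 h2 with h3 | h3
              · exact h3
              · exact absurd hxy.symm (hTS y h3).2
          · rcases Finset.mem_insert.1 h1 with h2 | h2
            · subst h2
              refine ⟨u, ⟨by simp, hadj.symm⟩, ?_⟩
              rintro y ⟨hy, hxy⟩
              rcases Finset.mem_insert.1 hy with h3 | h3
              · exact h3
              · rcases Finset.mem_insert.1 h3 with h4 | h4
                · exact absurd h4 (G.ne_of_adj hxy).symm
                · exact absurd hxy.symm (hS y (hTS y h4).1).1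
            · obtain ⟨y, ⟨hy1, hy2⟩, hy3⟩ := hTm x h2
              refine ⟨y, ⟨by simp [hy1], hy2⟩, ?_⟩
              rintro y' ⟨hy', hxy'⟩
              rcases Finset.mem_insert.1 hy' with h3 | h3
              · rw [h3] at hxy'
                exact absurd hxy' (hTS x h2).2
              · rcases Finset.mem_insert.1 h3 with h4 | h4
                · rw [h4] at hxy'
                  exact absurd hxy' (hS x (hTS x h2).1).1
                · exact hy3 y' ⟨h4, hxy'⟩
        · intro x hx
          rcases Finset.mem_insert.1 hx with h1 | h1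
          · rw [h1]
            exact ⟨v, by simp, hadj, Or.inr hi⟩
          · rcases Finset.mem_insert.1 h1 with h2 | h2
            · rw [h2]
              exact ⟨u, by simp, hadj.symm, Or.inl hi⟩
            · obtain ⟨y, hy1, hy2, hy3⟩ := hTt x h2
              simp only [le_min_iff, max_le_iff] at hy3
              refine ⟨y, by simp [hy1], hy2, ?_⟩
              rcases hy3 with h3 | h3
              · exact Or.inl ⟨h3.1.1, h3.2.1⟩
              · exact Or.inr ⟨h3.1.1, h3.2.1⟩
    · intro s hs hsc
      exact h.cl s (fun x hx => hSA (hmem x (hs hx)).1) hsc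
  have h1 := Col.biUnion (K.erase v) (fun u => S.filter (fun x => ¬ G.Adj x u)) (F k w) hAcol
  have h2 := hBcol.union h1
  rw [Finset.card_erase_of_mem hv, hKw] at h2
  exact h2.mono hcov le_rfl

/-- `Q` is a clique of size `w` inside `A`. -/
def IsK (G : SimpleGraph V) (A : Finset V) (w : ℕ) (Q : Finset V) : Prop :=
  Q ⊆ A ∧ G.IsClique (Q : Set V) ∧ Q.card = w

/-- The first point met by all the members of `Q`. -/
def loc (l : V → ℕ) (Q : Finset V) : ℕ := Q.sup l

theorem loc_mem {k w : ℕ} {A : Finset V} {l r : V → ℕ} (h : Good G k w A l r)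
    {Q : Finset V} {m : ℕ} (hQ : IsK G A (m + 1) Q) {z : V} (hz : z ∈ Q) :
    l z ≤ loc l Q ∧ loc l Q ≤ r z := by
  classical
  refine ⟨Finset.le_sup hz, ?_⟩
  have hne : Q.Nonempty := ⟨z, hz⟩
  obtain ⟨y, hy, hy'⟩ := Finset.exists_mem_eq_sup Q hne l
  unfold loc
  rw [hy']
  by_cases hyz : y = z
  · rw [hyz]; exact h.le z (hQ.1 hz)
  · exact h.adj y (hQ.1 hy) z (hQ.1 hz)
      (hQ.2.1 (Finset.mem_coe.2 hy) (Finset.mem_coe.2 hz) hyz)

theorem seq {k w : ℕ} {A : Finset V} {l r : V → ℕ} (h : Good G k (w + 1) A l r) (v0 : V) :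
    ∀ N a : ℕ, (∀ Q, IsK G A (w + 1) Q → loc l Q < a + N) →
    ∃ (n : ℕ) (t : ℕ → ℕ) (p : ℕ → V),
      (∀ i < n, a ≤ t i) ∧
      (∀ i < n, ∃ Q, IsK G A (w + 1) Q ∧ p i ∈ Q) ∧
      (∀ i < n, l (p i) ≤ t i ∧ t i ≤ r (p i)) ∧
      (∀ i < n, ∀ z, (∃ Q, IsK G A (w + 1) Q ∧ z ∈ Q) → l z ≤ t i → t i ≤ r z →
        r z ≤ r (p i)) ∧
      (∀ i, i + 1 < n → r (p i) < t (i + 1)) ∧
      (∀ Q, IsK G A (w + 1) Q → a ≤ loc l Q → ∃ i < n, t i ≤ loc l Q ∧ loc l Q ≤ r (p i)) := by
  classical
  intro N
  induction N with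
  | zero =>
    intro a ha
    refine ⟨0, fun _ => 0, fun _ => v0, by simp, by simp, by simp, by simp, by simp, ?_⟩
    intro Q hQ hle
    have := ha Q hQ
    omega
  | succ N ih =>
    intro a ha
    by_cases hex : ∃ m : ℕ, ∃ Q, IsK G A (w + 1) Q ∧ a ≤ loc l Q ∧ loc l Q = m
    · set t0 := Nat.find hex with ht0
      obtain ⟨Q0, hQ0, hQa, hQt⟩ := Nat.find_spec hex
      rw [← ht0] at hQt
      have hmin : ∀ Q, IsK G A (w + 1) Q → a ≤ loc l Q → t0 ≤ loc l Q := fun Q hQ hle =>
        Nat.find_min' hex ⟨Q, hQ, hle, rfl⟩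
      set C : Finset V := A.filter (fun v => (∃ Q, IsK G A (w + 1) Q ∧ v ∈ Q) ∧
        l v ≤ t0 ∧ t0 ≤ r v) with hC
      have hCne : C.Nonempty := by
        have : Q0.Nonempty := Finset.card_pos.1 (by rw [hQ0.2.2]; omega)
        obtain ⟨z, hz⟩ := this
        have h1 := loc_mem h hQ0 hz
        rw [hQt] at h1
        exact ⟨z, Finset.mem_filter.2 ⟨hQ0.1 hz, ⟨Q0, hQ0, hz⟩, h1.1, h1.2⟩⟩
      obtain ⟨p0, hp0, hp0max⟩ := Finset.exists_max_image C r hCne
      have hp0' := Finset.mem_filter.1 hp0
      obtain ⟨n, t, p, h1, h2, h3, h4, h5, h6⟩ := ih (r p0 + 1) (by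
        intro Q hQ
        have := ha Q hQ
        have h7 : a ≤ t0 := by rw [← hQt]; exact hQa
        have := hp0'.2.2.2
        omega)
      refine ⟨n + 1, fun i => Nat.casesOn i t0 t, fun i => Nat.casesOn i p0 p,
        ?_, ?_, ?_, ?_, ?_, ?_⟩
      · intro i hi
        cases i with
        | zero => show a ≤ t0; rw [← hQt]; exact hQa
        | succ i =>
          show a ≤ t i
          have := h1 i (by omega)
          have h7 : a ≤ t0 := by rw [← hQt]; exact hQa
          have := hp0'.2.2.2
          omega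
      · intro i hi
        cases i with
        | zero => exact hp0'.2.1
        | succ i => exact h2 i (by omega)
      · intro i hi
        cases i with
        | zero => exact hp0'.2.2
        | succ i => exact h3 i (by omega)
      · intro i hi z hz hlz hrz
        cases i with
        | zero =>
          obtain ⟨Q, hQ, hzQ⟩ := hz
          exact hp0max z (Finset.mem_filter.2 ⟨hQ.1 hzQ, ⟨Q, hQ, hzQ⟩, hlz, hrz⟩)
        | succ i => exact h4 i (by omega) z hz hlz hrz
      · intro i hi
        cases i with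
        | zero =>
          show r p0 < t 0
          have := h1 0 (by omega)
          omega
        | succ i => exact h5 i (by omega)
      · intro Q hQ hle
        by_cases hc : loc l Q ≤ r p0
        · exact ⟨0, by omega, hmin Q hQ hle, hc⟩
        · obtain ⟨i, hi, h7, h8⟩ := h6 Q hQ (by omega)
          exact ⟨i + 1, by omega, h7, h8⟩
    · refine ⟨0, fun _ => 0, fun _ => v0, by simp, by simp, by simp, by simp, by simp, ?_⟩
      intro Q hQ hle
      exact absurd ⟨_, Q, hQ, hle, rfl⟩ hex

theorem Col.insertIso {S : Finset V} {m : ℕ} (hm : 1 ≤ m) (h : Col G S m) {v : V}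
    (hv : ∀ x ∈ S, ¬ G.Adj x v) : Col G (insert v S) m := by
  classical
  obtain ⟨c, h1, h2⟩ := h
  refine ⟨Function.update c v 0, ?_, ?_⟩
  · intro x hx
    by_cases hxv : x = v
    · rw [hxv, Function.update_self]; omega
    · rw [Function.update_of_ne hxv]
      rcases Finset.mem_insert.1 hx with h3 | h3
      · exact absurd h3 hxv
      · exact h1 x h3
  · intro x hx y hy hxy
    by_cases hxv : x = v
    · by_cases hyv : y = v
      · exact absurd (hxv.trans hyv.symm) (G.ne_of_adj hxy)
      · rcases Finset.mem_insert.1 hy with h3 | h3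
        · exact absurd h3 hyv
        · rw [hxv] at hxy
          exact absurd hxy.symm (hv y h3)
    · rcases Finset.mem_insert.1 hx with h3 | h3
      · exact absurd h3 hxv
      · by_cases hyv : y = v
        · rw [hyv] at hxy
          exact absurd hxy (hv x h3)
        · rcases Finset.mem_insert.1 hy with h4 | h4
          · exact absurd h4 hyv
          · rw [Function.update_of_ne hxv, Function.update_of_ne hyv]
            exact h2 x h3 y h4 hxy

theorem step {k w : ℕ} {A : Finset V} {l r : V → ℕ} (h : Good G (k + 1) (w + 1) A l r)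
    (IH : ∀ (A' : Finset V) (l' r' : V → ℕ), Good G k (w + 1) A' l' r' →
      Col G A' (F k (w + 1)))
    (IHw : ∀ (A' : Finset V) (l' r' : V → ℕ), Good G (k + 1) w A' l' r' →
      Col G A' (F (k + 1) w)) :
    Col G A (F (k + 1) (w + 1)) := by
  classical
  by_cases hV : Nonempty V
  swap
  · exact ⟨fun _ => 0, fun v => absurd ⟨v⟩ hV, fun v => absurd ⟨v⟩ hV⟩
  obtain ⟨v0⟩ := hV
  obtain ⟨n, t, p, h1, h2, h3, h4, h5, h6⟩ := seq h v0 (A.sup l + 1) 0 (by
    intro Q hQ
    have : loc l Q ≤ A.sup l := Finset.sup_mono hQ.1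
    omega)
  set g := 1 + w * F k (w + 1) with hg
  -- monotonicity of the pivot points
  have htr : ∀ i < n, t i ≤ r (p i) := fun i hi => (h3 i hi).2
  have hmono : ∀ j, j < n → ∀ i, i ≤ j → t i ≤ t j := by
    intro j
    induction j with
    | zero => intro _ i hi; obtain rfl : i = 0 := by omega
              exact le_rfl
    | succ j ihj =>
      intro hj i hi
      rcases Nat.lt_or_ge i (j + 1) with h7 | h7
      · have h8 := ihj (by omega) i (by omega)
        have h9 := htr j (by omega)
        have h10 := h5 j hj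
        omega
      · obtain rfl : i = j + 1 := by omega
        exact le_rfl
  -- the sets to be coloured
  let S : ℕ → Finset V := fun i => A.filter (fun x => ∃ Q, IsK G A (w + 1) Q ∧ x ∈ Q ∧
    t i ≤ loc l Q ∧ loc l Q ≤ r (p i) ∧ (x = p i ∨ ¬ G.Adj x (p i)))
  have hScol : ∀ i, i < n → Col G (S i) g := by
    intro i hi
    obtain ⟨K, hK, hpK⟩ := h2 i hi
    have hp := pivot h IH hK.1 hK.2.1 hK.2.2 hpK ((S i).erase (p i))
      ((Finset.erase_subset _ _).trans (Finset.filter_subset _ _)) (by
        intro x hx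
        have hxne := Finset.ne_of_mem_erase hx
        obtain ⟨-, Q, hQ, hxQ, hle1, hle2, hor⟩ :=
          Finset.mem_filter.1 (Finset.mem_of_mem_erase hx)
        have h7 := loc_mem h hQ hxQ
        have h8 := (h3 i hi).1
        refine ⟨?_, hxne, ?_, ?_⟩
        · rcases hor with h9 | h9
          · exact absurd h9 hxne
          · exact h9
        · omega
        · omega)
    rw [Nat.add_sub_cancel, ← hg] at hp
    have hp2 := Col.insertIso (by omega) hp (v := p i) (by
        intro x hx
        have hxne := Finset.ne_of_mem_erase hx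
        obtain ⟨-, Q, hQ, hxQ, hle1, hle2, hor⟩ :=
          Finset.mem_filter.1 (Finset.mem_of_mem_erase hx)
        rcases hor with h9 | h9
        · exact absurd h9 hxne
        · exact h9)
    exact hp2.mono (by
      intro x hx
      by_cases hxp : x = p i
      · rw [hxp]; exact Finset.mem_insert_self _ _
      · exact Finset.mem_insert_of_mem (Finset.mem_erase.2 ⟨hxp, hx⟩)) le_rfl
  have hc : ∀ i, ∃ c : V → ℕ, i < n → (∀ v ∈ S i, c v < g) ∧
      ∀ u ∈ S i, ∀ v ∈ S i, G.Adj u v → c u ≠ c v := by
    intro i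
    by_cases hi : i < n
    · obtain ⟨c, hc1, hc2⟩ := hScol i hi
      exact ⟨c, fun _ => ⟨hc1, hc2⟩⟩
    · exact ⟨fun _ => 0, fun hh => absurd hh hi⟩
  choose c hc using hc
  -- far away pivots do not interact
  have far : ∀ i j, i + 3 ≤ j → j < n → ∀ x ∈ S i, ∀ y ∈ S j, ¬ G.Adj x y := by
    intro i j hij hj x hx y hy hxy
    obtain ⟨hxA, Q, hQ, hxQ, a1, a2, -⟩ := Finset.mem_filter.1 hx
    obtain ⟨hyA, Q', hQ', hyQ, b1, b2, -⟩ := Finset.mem_filter.1 hy
    have c1 := loc_mem h hQ hxQ
    have c2 := loc_mem h hQ' hyQ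
    have d1 : r (p i) < t (i + 1) := h5 i (by omega)
    have d2 : r (p (i + 1)) < t (i + 2) := h5 (i + 1) (by omega)
    have d3 : r (p (i + 2)) < t (i + 3) := h5 (i + 2) (by omega)
    have d4 := hmono j hj (i + 3) hij
    have e1 := htr (i + 1) (by omega)
    have e2 := htr (i + 2) (by omega)
    have f1 := h4 (i + 1) (by omega) x ⟨Q, hQ, hxQ⟩
    have f2 := h4 (i + 2) (by omega) y ⟨Q', hQ', hyQ⟩
    have g1 := h.adj y hyA x hxA hxy.symm
    have hrx : r x ≤ r (p (i + 1)) := by
      by_cases hh : t (i + 1) ≤ r x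
      · exact f1 (by omega) hh
      · omega
    have hry : r y ≤ r (p (i + 2)) := f2 (by omega) (by omega)
    omega
  -- the union
  let T : Finset V := A.filter (fun x => ∃ i, i < n ∧ x ∈ S i)
  have hTcol : Col G T (3 * g) := by
    let idx : V → ℕ := fun x => if hx : ∃ i, i < n ∧ x ∈ S i then hx.choose else 0
    have hidx : ∀ x ∈ T, idx x < n ∧ x ∈ S (idx x) := by
      intro x hx
      have hx' := (Finset.mem_filter.1 hx).2
      have : idx x = hx'.choose := by simp only [idx]; rw [dif_pos hx']
      rw [this]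
      exact hx'.choose_spec
    refine ⟨fun x => (idx x % 3) * g + c (idx x) x, ?_, ?_⟩
    · intro x hx
      obtain ⟨i1, i2⟩ := hidx x hx
      have i3 := (hc (idx x) i1).1 x i2
      have i4 : idx x % 3 ≤ 2 := by omega
      have i5 : (idx x % 3) * g ≤ 2 * g := Nat.mul_le_mul_right _ i4
      show (idx x % 3) * g + c (idx x) x < 3 * g
      omega
    · intro x hx y hy hxy heq
      obtain ⟨i1, i2⟩ := hidx x hx
      obtain ⟨j1, j2⟩ := hidx y hy
      have i3 := (hc (idx x) i1).1 x i2
      have j3 := (hc (idx y) j1).1 y j2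
      change (idx x % 3) * g + c (idx x) x = (idx y % 3) * g + c (idx y) y at heq
      have hmod : idx x % 3 = idx y % 3 := by
        rcases Nat.lt_trichotomy (idx x % 3) (idx y % 3) with h7 | h7 | h7
        · have : (idx x % 3 + 1) * g ≤ (idx y % 3) * g := Nat.mul_le_mul_right _ h7
          rw [Nat.add_mul] at this
          omega
        · exact h7
        · have : (idx y % 3 + 1) * g ≤ (idx x % 3) * g := Nat.mul_le_mul_right _ h7
          rw [Nat.add_mul] at this
          omega
      rw [hmod] at heq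
      have hcc : c (idx x) x = c (idx y) y := by omega
      by_cases hij : idx x = idx y
      · rw [hij] at hcc i2
        exact (hc (idx y) j1).2 x i2 y j2 hxy hcc
      · rcases Nat.lt_or_ge (idx x) (idx y) with h7 | h7
        · exact far (idx x) (idx y) (by omega) j1 x i2 y j2 hxy
        · exact far (idx y) (idx x) (by omega) i1 y j2 x i2 hxy.symm
  have hrest : Col G (A \ T) (F (k + 1) w) := by
    apply IHw _ l r
    have hs := h.sub (B := A \ T) Finset.sdiff_subset
    refine ⟨hs.le, hs.adj, hs.mu, ?_⟩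
    intro s hs1 hs2
    have hs3 := hs.cl s hs1 hs2
    by_contra hcon
    have hsK : IsK G A (w + 1) s :=
      ⟨hs1.trans Finset.sdiff_subset, hs2, by omega⟩
    obtain ⟨i, hi, h7, h8⟩ := h6 s hsK (Nat.zero_le _)
    have hmem : ∀ x ∈ s, (x = p i ∨ ¬ G.Adj x (p i)) → False := by
      intro x hx hor
      have hxA : x ∈ A := (Finset.mem_sdiff.1 (hs1 hx)).1
      have hxT : x ∉ T := (Finset.mem_sdiff.1 (hs1 hx)).2
      exact hxT (Finset.mem_filter.2 ⟨hxA, i, hi,
        Finset.mem_filter.2 ⟨hxA, s, hsK, hx, h7, h8, hor⟩⟩)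
    have hall : ∀ x ∈ s, G.Adj x (p i) := by
      intro x hx
      by_contra hh
      exact hmem x hx (Or.inr hh)
    have hpi : p i ∉ s := fun hh => hmem (p i) hh (Or.inl rfl)
    obtain ⟨K, hK, hpK⟩ := h2 i hi
    have hcl : G.IsClique ((insert (p i) s : Finset V) : Set V) := by
      rw [Finset.coe_insert, SimpleGraph.isClique_insert]
      exact ⟨hs2, fun z hz _ => (hall z (Finset.mem_coe.1 hz)).symm⟩
    have hsub : insert (p i) s ⊆ A := by
      intro z hz
      rcases Finset.mem_insert.1 hz with h9 | h9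
      · rw [h9]; exact hK.1 hpK
      · exact hsK.1 h9
    have := h.cl _ hsub hcl
    rw [Finset.card_insert_of_notMem hpi, hsK.2.2] at this
    omega
  have hfin := hTcol.union hrest
  have e : F (k + 1) (w + 1) = F (k + 1) w + 3 * (1 + w * F k (w + 1)) := by simp [F]
  rw [e, ← hg]
  exact hfin.mono (by
    intro x hx
    by_cases hxT : x ∈ T
    · exact Finset.mem_union_left _ hxT
    · exact Finset.mem_union_right _ (Finset.mem_sdiff.2 ⟨hx, hxT⟩)) (by omega)

theorem main (k w : ℕ) : ∀ (A : Finset V) (l r : V → ℕ), Good G k w A l r →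
    Col G A (F k w) := by
  classical
  induction k generalizing w with
  | zero =>
    intro A l r h
    have e0 : F 0 w = 1 := by simp [F]
    rw [e0]
    apply Col.indep
    intro u hu v hv huv
    have hne := G.ne_of_adj huv
    have := h.mu (l u) {u, v} (by
      intro z hz
      simp only [Finset.mem_insert, Finset.mem_singleton] at hz
      rcases hz with h1 | h1 <;> rw [h1] <;> assumption) (by
      intro z hz
      simp only [Finset.mem_insert, Finset.mem_singleton] at hz
      rcases hz with h1 | h1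
      · subst h1
        refine ⟨v, ⟨by simp, huv⟩, ?_⟩
        rintro y ⟨hy, hzy⟩
        simp only [Finset.mem_insert, Finset.mem_singleton] at hy
        rcases hy with h2 | h2
        · exact absurd h2 (G.ne_of_adj hzy).symm
        · exact h2
      · subst h1
        refine ⟨u, ⟨by simp, huv.symm⟩, ?_⟩
        rintro y ⟨hy, hzy⟩
        simp only [Finset.mem_insert, Finset.mem_singleton] at hy
        rcases hy with h2 | h2
        · exact h2
        · exact absurd h2 (G.ne_of_adj hzy).symm) (by
      intro z hz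
      simp only [Finset.mem_insert, Finset.mem_singleton] at hz
      have hl := h.le u hu
      rcases hz with h1 | h1
      · rw [h1]
        exact ⟨v, by simp, huv, Or.inl ⟨le_rfl, hl⟩⟩
      · rw [h1]
        exact ⟨u, by simp, huv.symm, Or.inr ⟨le_rfl, hl⟩⟩)
    rw [Finset.card_pair hne] at this
    omega
  | succ k ihk =>
    induction w with
    | zero =>
      intro A l r h
      have hA : A = ∅ := by
        by_contra hA
        obtain ⟨v, hv⟩ := Finset.nonempty_iff_ne_empty.2 hA
        have := h.cl {v} (by simpa using hv) (by simp)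
        simp at this
      rw [hA]
      exact ⟨fun _ => 0, by simp, by simp⟩
    | succ w ihw =>
      intro A l r h
      exact step h (ihk (w + 1)) ihw

/-- **Graphs of bounded induced matching pathwidth are polynomially chi-bounded.** -/
theorem result (k : ℕ) (V : Type) [Fintype V] (G : SimpleGraph V)
    (h : HasPathMuLe G k) :
    G.chromaticNumber ≤ ((3 ^ k * G.cliqueNum ^ (2 * k) : ℕ) : ℕ∞) := by
  classical
  obtain ⟨n, bag, hcov, hedge, hint, hmu⟩ := h
  let B : V → Finset (Fin n) := fun v => Finset.univ.filter (fun i => v ∈ bag i)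
  have hB : ∀ v, (B v).Nonempty := fun v => by
    obtain ⟨i, hi⟩ := hcov v
    exact ⟨i, Finset.mem_filter.2 ⟨Finset.mem_univ _, hi⟩⟩
  let l : V → ℕ := fun v => ((B v).min' (hB v)).val
  let r : V → ℕ := fun v => ((B v).max' (hB v)).val
  have hmemB : ∀ v i, v ∈ bag i ↔ i ∈ B v := fun v i => by simp [B]
  have hlb : ∀ v i, v ∈ bag i → l v ≤ i.val ∧ i.val ≤ r v := by
    intro v i hi
    have hi' := (hmemB v i).1 hi
    exact ⟨Finset.min'_le _ _ hi', Finset.le_max' _ _ hi'⟩
  have hconv : ∀ v (i : Fin n), l v ≤ i.val → i.val ≤ r v → v ∈ bag i := by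
    intro v i h1 h2
    refine hint v ((B v).min' (hB v)) ((B v).max' (hB v)) i h1 h2 ?_ ?_
    · exact (hmemB v _).2 (Finset.min'_mem _ _)
    · exact (hmemB v _).2 (Finset.max'_mem _ _)
  have hrn : ∀ v, r v < n := fun v => ((B v).max' (hB v)).isLt
  have hgood : Good G k G.cliqueNum Finset.univ l r := by
    refine ⟨?_, ?_, ?_, ?_⟩
    · intro v _
      obtain ⟨i, hi⟩ := hcov v
      have := hlb v i hi
      omega
    · intro u _ v _ huv
      obtain ⟨i, hi1, hi2⟩ := hedge u v huv
      have h1 := hlb u i hi1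
      have h2 := hlb v i hi2
      omega
    · intro i S _ hS1 hS2
      by_cases hi : i < n
      · apply hmu ⟨i, hi⟩ S hS1
        intro v hv
        obtain ⟨u, hu, huv, hor⟩ := hS2 v hv
        refine ⟨u, hu, huv, ?_⟩
        rcases hor with h1 | h1
        · exact Or.inl (hconv v ⟨i, hi⟩ h1.1 h1.2)
        · exact Or.inr (hconv u ⟨i, hi⟩ h1.1 h1.2)
      · rcases S.eq_empty_or_nonempty with he | ⟨v, hv⟩
        · rw [he]; simp
        · exfalso
          obtain ⟨u, hu, huv, hor⟩ := hS2 v hv
          have h1 := hrn u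
          have h2 := hrn v
          rcases hor with h3 | h3 <;> omega
    · intro s _ hs
      exact SimpleGraph.IsClique.card_le_cliqueNum (tc := hs)
  obtain ⟨c, hc1, hc2⟩ := main (G := G) k G.cliqueNum Finset.univ l r hgood
  have hcolor : G.Colorable (F k G.cliqueNum) :=
    ⟨SimpleGraph.Coloring.mk (fun v => (⟨c v, hc1 v (Finset.mem_univ v)⟩ : Fin _)) (by
      intro u v huv heq
      exact hc2 u (Finset.mem_univ u) v (Finset.mem_univ v) huv (by
        simpa using congrArg Fin.val heq))⟩
  have h1 := hcolor.chromaticNumber_le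
  refine h1.trans ?_
  have h2 := F_le k G.cliqueNum
  have h3 : (3 * G.cliqueNum ^ 2) ^ k = 3 ^ k * G.cliqueNum ^ (2 * k) := by
    rw [mul_pow, ← pow_mul]
  rw [h3] at h2
  exact_mod_cast h2

end Pool.Agent.T6.H76.TreeMu.PathDecompositions
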