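import Mathlib

set_option autoImplicit false
set_option linter.unusedSectionVars false

namespace Pool.Agent.T6.H76.TreeMu.TreeMuOne

open Finset

/-- Every finite set `S` of vertices inducing a perfect matching of `G`, all of whose edges
have an end in `bag`, has at most `2 * k` elements: the induced matching number of the bag
is at most `k`. -/
def MuLe {V : Type} (G : SimpleGraph V) (bag : V → Prop) (k : ℕ) : Prop :=
  ∀ S : Finset V,
    (∀ v ∈ S, ∃! u : V, u ∈ S ∧ G.Adj v u) →
    (∀ v ∈ S, ∃ u ∈ S, G.Adj v u ∧ (bag v ∨ bag u)) →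
    S.card ≤ 2 * k

/-- `G` has a tree decomposition all of whose bags have induced matching number at most
`k`. -/
def HasTreeMuLe {V : Type} (G : SimpleGraph V) (k : ℕ) : Prop :=
  ∃ n : ℕ, ∃ T : SimpleGraph (Fin n), ∃ bag : Fin n → Finset V,
    T.IsTree ∧
    (∀ v : V, ∃ i : Fin n, v ∈ bag i) ∧
    (∀ u v : V, G.Adj u v → ∃ i : Fin n, u ∈ bag i ∧ v ∈ bag i) ∧
    (∀ v : V, ∀ i j : Fin n, v ∈ bag i → v ∈ bag j →
      ∃ p : T.Walk i j, ∀ x ∈ p.support, v ∈ bag x) ∧
    (∀ i : Fin n, MuLe G (fun v => v ∈ bag i) k)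

section colours

variable {V : Type} [DecidableEq V] (G : SimpleGraph V)

/-- `A` can be properly coloured with colours below `m`. -/
def Col (A : Finset V) (m : ℕ) : Prop :=
  ∃ c : V → ℕ, (∀ v ∈ A, c v < m) ∧ ∀ u ∈ A, ∀ v ∈ A, G.Adj u v → c u ≠ c v

variable {G}

theorem Col.mono {A B : Finset V} {m n : ℕ} (h : Col G A m) (hAB : B ⊆ A) (hmn : m ≤ n) :
    Col G B n := by
  obtain ⟨c, h1, h2⟩ := h
  exact ⟨c, fun v hv => lt_of_lt_of_le (h1 v (hAB hv)) hmn,
    fun u hu v hv => h2 u (hAB hu) v (hAB hv)⟩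

theorem Col.union {A B : Finset V} {m n : ℕ} (hA : Col G A m) (hB : Col G B n) :
    Col G (A ∪ B) (m + n) := by
  classical
  obtain ⟨a, a1, a2⟩ := hA
  obtain ⟨b, b1, b2⟩ := hB
  refine ⟨fun v => if v ∈ A then a v else m + b v, ?_, ?_⟩
  · intro v hv
    by_cases hvA : v ∈ A
    · simp only [hvA, if_true]
      have := a1 v hvA
      omega
    · simp only [hvA, if_false]
      have hvB : v ∈ B := by
        rcases Finset.mem_union.1 hv with h | h
        · exact absurd h hvA
        · exact h
      have := b1 v hvB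
      omega
  · intro u hu v hv huv
    by_cases hvA : v ∈ A <;> by_cases huA : u ∈ A
    · simp only [hvA, huA, if_true]
      exact a2 u huA v hvA huv
    · simp only [hvA, huA, if_true, if_false]
      have := a1 v hvA
      omega
    · simp only [hvA, huA, if_true, if_false]
      have := a1 u huA
      omega
    · simp only [hvA, huA, if_false]
      have hvB : v ∈ B := by
        rcases Finset.mem_union.1 hv with h | h
        · exact absurd h hvA
        · exact h
      have huB : u ∈ B := by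
        rcases Finset.mem_union.1 hu with h | h
        · exact absurd h huA
        · exact h
      have := b2 u huB v hvB huv
      omega

theorem Col.biUnion (K : Finset V) (A : V → Finset V) (m : ℕ)
    (h : ∀ u ∈ K, Col G (A u) m) : Col G (K.biUnion A) (K.card * m) := by
  classical
  induction K using Finset.induction_on with
  | empty => exact ⟨fun _ => 0, by simp, by simp⟩
  | insert a s ha ih =>
    rw [Finset.biUnion_insert, Finset.card_insert_of_notMem ha]
    have h1 := h a (Finset.mem_insert_self a s)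
    have h2 := ih (fun u hu => h u (Finset.mem_insert_of_mem hu))
    exact (h1.union h2).mono (Finset.Subset.refl _) (by ring_nf; omega)

theorem Col.indep {A : Finset V} (h : ∀ u ∈ A, ∀ v ∈ A, ¬ G.Adj u v) : Col G A 1 :=
  ⟨fun _ => 0, fun _ _ => by norm_num, fun u hu v hv huv => absurd huv (h u hu v hv)⟩

theorem Col.insertIso {S : Finset V} {m : ℕ} (hm : 1 ≤ m) (h : Col G S m) {v : V}
    (hv : ∀ x ∈ S, ¬ G.Adj x v) : Col G (insert v S) m := by
  classical
  obtain ⟨c, h1, h2⟩ := h
  refine ⟨Function.update c v 0, ?_, ?_⟩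
  · intro x hx
    by_cases hxv : x = v
    · rw [hxv, Function.update_self]; omega
    · rw [Function.update_of_ne hxv]
      rcases Finset.mem_insert.1 hx with h3 | h3
      · exact absurd h3 hxv
      · exact h1 x h3
  · intro x hx y hy hxy
    by_cases hxv : x = v
    · by_cases hyv : y = v
      · exact absurd (hxv.trans hyv.symm) (G.ne_of_adj hxy)
      · rcases Finset.mem_insert.1 hy with h3 | h3
        · exact absurd h3 hyv
        · rw [hxv] at hxy
          exact absurd hxy.symm (hv y h3)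
    · rcases Finset.mem_insert.1 hx with h3 | h3
      · exact absurd h3 hxv
      · by_cases hyv : y = v
        · rw [hyv] at hxy
          exact absurd hxy (hv x h3)
        · rcases Finset.mem_insert.1 hy with h4 | h4
          · exact absurd h4 hyv
          · rw [Function.update_of_ne hxv, Function.update_of_ne hyv]
            exact h2 x h3 y h4 hxy

end colours

section conn

variable {N : Type} [DecidableEq N] (par : N → N) (rk : N → ℕ)

/-- `A` is closed under parents, except at its top. -/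
def Conn (A : Finset N) : Prop :=
  ∃ a ∈ A, ∀ z ∈ A, z ≠ a → par z ∈ A ∧ rk (par z) < rk z

variable {par rk}

theorem top_le {A : Finset N} {a : N} (h : ∀ z ∈ A, z ≠ a → par z ∈ A ∧ rk (par z) < rk z)
    {z : N} (hz : z ∈ A) : rk a ≤ rk z := by
  induction hn : rk z using Nat.strong_induction_on generalizing z with
  | _ n ih =>
    by_cases hza : z = a
    · rw [hza] at hn; omega
    · obtain ⟨h1, h2⟩ := h z hz hza
      have := ih (rk (par z)) (by omega) h1 rfl
      omega

theorem top_mem {A B : Finset N} {a b : N}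
    (hA : ∀ z ∈ A, z ≠ a → par z ∈ A ∧ rk (par z) < rk z)
    (hB : ∀ z ∈ B, z ≠ b → par z ∈ B ∧ rk (par z) < rk z)
    {z : N} (hzA : z ∈ A) (hzB : z ∈ B) : a ∈ B ∨ b ∈ A := by
  induction hn : rk z using Nat.strong_induction_on generalizing z with
  | _ n ih =>
    by_cases hza : z = a
    · left; rw [← hza]; exact hzB
    · by_cases hzb : z = b
      · right; rw [← hzb]; exact hzA
      · obtain ⟨h1, h2⟩ := hA z hzA hza
        obtain ⟨h3, h4⟩ := hB z hzB hzb
        exact ih (rk (par z)) (by omega) h1 h3 rfl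

/-- equal ranks of two tops, one in the other set -/
theorem top_eq {B : Finset N} {a b : N}
    (hB : ∀ z ∈ B, z ≠ b → par z ∈ B ∧ rk (par z) < rk z)
    (haB : a ∈ B) (h : rk a ≤ rk b) : a = b := by
  by_contra hab
  obtain ⟨h1, h2⟩ := hB a haB hab
  have := top_le hB h1
  omega

theorem Conn.inter {A B : Finset N} (hA : Conn par rk A) (hB : Conn par rk B)
    (h : (A ∩ B).Nonempty) : Conn par rk (A ∩ B) := by
  have key : ∀ A B : Finset N, ∀ a b : N, a ∈ A → b ∈ B →
      (∀ z ∈ A, z ≠ a → par z ∈ A ∧ rk (par z) < rk z) →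
      (∀ z ∈ B, z ≠ b → par z ∈ B ∧ rk (par z) < rk z) → a ∈ B → Conn par rk (A ∩ B) := by
    intro A B a b haA hbB hA' hB' haB
    refine ⟨a, Finset.mem_inter.2 ⟨haA, haB⟩, ?_⟩
    intro z hz hza
    obtain ⟨hzA, hzB⟩ := Finset.mem_inter.1 hz
    obtain ⟨h1, h2⟩ := hA' z hzA hza
    refine ⟨Finset.mem_inter.2 ⟨h1, ?_⟩, h2⟩
    by_cases hzb : z = b
    · exfalso
      have h3 := top_le hB' haB
      have h4 := top_le hA' h1
      rw [hzb] at h2 h4
      omega
    · exact (hB' z hzB hzb).1
  obtain ⟨a, haA, hA'⟩ := hA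
  obtain ⟨b, hbB, hB'⟩ := hB
  obtain ⟨z, hz⟩ := h
  obtain ⟨hzA, hzB⟩ := Finset.mem_inter.1 hz
  rcases top_mem hA' hB' hzA hzB with h1 | h1
  · exact key A B a b haA hbB hA' hB' h1
  · rw [Finset.inter_comm]
    exact key B A b a hbB haA hB' hA' h1

theorem Conn.union {A B : Finset N} (hA : Conn par rk A) (hB : Conn par rk B)
    (h : (A ∩ B).Nonempty) : Conn par rk (A ∪ B) := by
  have key : ∀ A B : Finset N, ∀ a b : N, b ∈ B →
      (∀ z ∈ A, z ≠ a → par z ∈ A ∧ rk (par z) < rk z) →
      (∀ z ∈ B, z ≠ b → par z ∈ B ∧ rk (par z) < rk z) → a ∈ B → Conn par rk (A ∪ B) := by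
    intro A B a b hbB hA' hB' haB
    refine ⟨b, Finset.mem_union_right _ hbB, ?_⟩
    intro z hz hzb
    by_cases hzB : z ∈ B
    · obtain ⟨h1, h2⟩ := hB' z hzB hzb
      exact ⟨Finset.mem_union_right _ h1, h2⟩
    · have hzA : z ∈ A := by
        rcases Finset.mem_union.1 hz with h1 | h1
        · exact h1
        · exact absurd h1 hzB
      have hza : z ≠ a := fun hh => hzB (hh ▸ haB)
      obtain ⟨h1, h2⟩ := hA' z hzA hza
      exact ⟨Finset.mem_union_left _ h1, h2⟩
  obtain ⟨a, haA, hA'⟩ := hA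
  obtain ⟨b, hbB, hB'⟩ := hB
  obtain ⟨z, hz⟩ := h
  obtain ⟨hzA, hzB⟩ := Finset.mem_inter.1 hz
  rcases top_mem hA' hB' hzA hzB with h1 | h1
  · exact key A B a b hbB hA' hB' h1
  · rw [Finset.union_comm]
    exact key B A b a haA hB' hA' h1

theorem helly {A B C : Finset N} (hA : Conn par rk A) (hB : Conn par rk B)
    (hC : Conn par rk C) (hAB : (A ∩ B).Nonempty) (hBC : (B ∩ C).Nonempty)
    (hAC : (A ∩ C).Nonempty) : ∃ z, z ∈ A ∧ z ∈ B ∧ z ∈ C := by
  obtain ⟨a, haA, hA'⟩ := hA
  obtain ⟨b, hbB, hB'⟩ := hB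
  obtain ⟨c, hcC, hC'⟩ := hC
  obtain ⟨x, hx⟩ := hAB
  obtain ⟨y, hy⟩ := hBC
  obtain ⟨w, hw⟩ := hAC
  have h1 := top_mem hA' hB' (Finset.mem_inter.1 hx).1 (Finset.mem_inter.1 hx).2
  have h2 := top_mem hB' hC' (Finset.mem_inter.1 hy).1 (Finset.mem_inter.1 hy).2
  have h3 := top_mem hA' hC' (Finset.mem_inter.1 hw).1 (Finset.mem_inter.1 hw).2
  rcases h1 with h1 | h1
  · -- a ∈ B
    rcases h3 with h3 | h3
    · exact ⟨a, haA, h1, h3⟩
    · -- c ∈ A
      rcases h2 with h2 | h2
      · -- b ∈ C : cyclic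
        have e1 := top_le hB' h1
        have e2 := top_le hC' h2
        have e3 := top_le hA' h3
        have : a = b := top_eq hB' h1 (by omega)
        exact ⟨a, haA, h1, by rw [this]; exact h2⟩
      · exact ⟨c, h3, h2, hcC⟩
  · -- b ∈ A
    rcases h2 with h2 | h2
    · exact ⟨b, h1, hbB, h2⟩
    · -- c ∈ B
      rcases h3 with h3 | h3
      · have e1 := top_le hA' h1
        have e2 := top_le hB' h2
        have e3 := top_le hC' h3
        have : b = a := top_eq hA' h1 (by omega)
        exact ⟨a, haA, by rw [← this]; exact hbB, h3⟩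
      · exact ⟨c, h3, h2, hcC⟩

theorem noC4 {X Y P Q : Finset N} (hX : Conn par rk X) (hY : Conn par rk Y)
    (hP : Conn par rk P) (hQ : Conn par rk Q) (hXY : (X ∩ Y).Nonempty)
    (hXP : (X ∩ P).Nonempty) (hYQ : (Y ∩ Q).Nonempty) (hPY : ¬ (P ∩ Y).Nonempty)
    (hQX : ¬ (Q ∩ X).Nonempty) : ¬ (P ∩ Q).Nonempty := by
  intro hPQ
  have hU := Conn.union hP hQ hPQ
  have h1 : (Y ∩ (P ∪ Q)).Nonempty :=
    hYQ.mono (Finset.inter_subset_inter_left Finset.subset_union_right)
  have h2 : (X ∩ (P ∪ Q)).Nonempty :=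
    hXP.mono (Finset.inter_subset_inter_left Finset.subset_union_left)
  obtain ⟨z, hz1, hz2, hz3⟩ := helly hX hY hU hXY h1 h2
  rcases Finset.mem_union.1 hz3 with h3 | h3
  · exact hPY ⟨z, Finset.mem_inter.2 ⟨h3, hz2⟩⟩
  · exact hQX ⟨z, Finset.mem_inter.2 ⟨h3, hz1⟩⟩

/-- Among finitely many subtrees there is one whose top lies in all the members meeting it. -/
theorem exists_last {V : Type} [DecidableEq V] (M : Finset V) (hM : M.Nonempty)
    (T : V → Finset N) (hT : ∀ m ∈ M, Conn par rk (T m)) :
    ∃ m ∈ M, ∃ a ∈ T m, ∀ m' ∈ M, (T m ∩ T m').Nonempty → a ∈ T m' := by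
  classical
  have htop : ∀ m, ∃ a, m ∈ M → a ∈ T m ∧ ∀ z ∈ T m, z ≠ a → par z ∈ T m ∧ rk (par z) < rk z := by
    intro m
    by_cases hm : m ∈ M
    · obtain ⟨a, h1, h2⟩ := hT m hm
      exact ⟨a, fun _ => ⟨h1, h2⟩⟩
    · obtain ⟨m0, hm0⟩ := hM
      obtain ⟨a, -, -⟩ := hT m0 hm0
      exact ⟨a, fun hh => absurd hh hm⟩
  choose top htop using htop
  obtain ⟨m, hm, hmax⟩ := Finset.exists_max_image M (fun m => rk (top m)) hM
  refine ⟨m, hm, top m, (htop m hm).1, ?_⟩
  intro m' hm' hmm'
  obtain ⟨z, hz⟩ := hmm'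
  rcases top_mem (htop m hm).2 (htop m' hm').2 (Finset.mem_inter.1 hz).1
    (Finset.mem_inter.1 hz).2 with h1 | h1
  · exact h1
  · have h2 := hmax m' hm'
    have h3 := top_eq (htop m hm).2 h1 h2
    rw [← h3]
    exact (htop m' hm').1

end conn

theorem parent_unique {N : Type} {T : SimpleGraph N} (hT : T.IsTree) (r0 : N) {u w w' : N}
    (h1 : T.Adj u w) (h2 : T.Adj u w') (h3 : T.dist r0 u = T.dist r0 w + 1)
    (h4 : T.dist r0 u = T.dist r0 w' + 1) : w = w' := by
  classical
  have hlen : ∀ (x : N) (p : T.Walk r0 x), p.IsPath → p.length = T.dist r0 x := by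
    intro x p hp
    obtain ⟨q, hq, hq'⟩ := hT.connected.exists_path_of_dist r0 x
    have := (hT.existsUnique_path r0 x).unique hp hq
    rw [this, hq']
  have key : ∀ (x : N), T.Adj u x → T.dist r0 u = T.dist r0 x + 1 →
      ∀ q : T.Walk r0 u, q.IsPath → q.penultimate = x := by
    intro x hx hd q hq
    obtain ⟨p, hp, -⟩ := hT.existsUnique_path r0 x
    have hu : u ∉ p.support := by
      intro hu
      have h5 := hlen x p hp
      have h6 := hlen u (p.takeUntil u hu) (hp.takeUntil hu)
      have h7 := p.length_takeUntil_le_length hu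
      omega
    have h8 := hT.isAcyclic.mem_support_of_ne_mem_support_of_adj_of_isPath hq hp hx hu
    have h9 := hT.isAcyclic.path_concat hp hq hx.symm h8
    rw [h9]
    simp
  obtain ⟨q, hq, -⟩ := hT.existsUnique_path r0 u
  rw [← key w h1 h3 q hq, ← key w' h2 h4 q hq]

theorem exists_parent {N : Type} {T : SimpleGraph N} (hT : T.IsTree) (r0 z : N) (hz : z ≠ r0) :
    ∃ w, T.Adj z w ∧ T.dist r0 z = T.dist r0 w + 1 := by
  obtain ⟨p, hp⟩ := hT.connected.exists_walk_length_eq_dist r0 z
  have hnil : ¬ p.Nil := SimpleGraph.Walk.not_nil_of_ne hz.symm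
  have hadj : T.Adj p.penultimate z := p.adj_penultimate hnil
  refine ⟨p.penultimate, hadj.symm, ?_⟩
  rcases hT.dist_eq_dist_add_one_of_adj r0 hadj.symm with h | h
  · exact h
  · exfalso
    have h1 : T.dist r0 p.penultimate ≤ p.dropLast.length := T.dist_le _
    have h2 : p.dropLast.length ≤ p.length := by
      simp [SimpleGraph.Walk.dropLast]
    omega

theorem conn_of_tree {n : ℕ} {T : SimpleGraph (Fin n)} (hT : T.IsTree) :
    ∃ (par : Fin n → Fin n) (rk : Fin n → ℕ), ∀ A : Finset (Fin n), A.Nonempty →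
      (∀ i ∈ A, ∀ j ∈ A, ∃ p : T.Walk i j, ∀ x ∈ p.support, x ∈ A) → Conn par rk A := by
  classical
  obtain ⟨r0⟩ := hT.connected.nonempty
  have hpar : ∀ z, ∃ w, (z = r0 → w = r0) ∧ (z ≠ r0 → T.Adj z w ∧ T.dist r0 z = T.dist r0 w + 1) := by
    intro z
    by_cases hz : z = r0
    · exact ⟨r0, fun _ => rfl, fun h => absurd hz h⟩
    · obtain ⟨w, hw⟩ := exists_parent hT r0 z hz
      exact ⟨w, fun h => absurd h hz, fun _ => hw⟩
  choose par hpar1 hpar2 using hpar
  refine ⟨par, fun z => T.dist r0 z, ?_⟩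
  intro A hA hconn
  obtain ⟨a, haA, hmin⟩ := Finset.exists_min_image A (fun z => T.dist r0 z) hA
  have hle : ∀ (j : ℕ) (u : Fin n), T.dist r0 (par^[j] u) ≤ T.dist r0 u := by
    intro j
    induction j with
    | zero => intro u; exact le_rfl
    | succ j ih =>
      intro u
      rw [Function.iterate_succ_apply]
      refine (ih (par u)).trans ?_
      by_cases hu : u = r0
      · rw [hpar1 u hu, hu]
      · have := (hpar2 u hu).2
        omega
  refine ⟨a, haA, ?_⟩
  intro z hz hza
  have hzr : z ≠ r0 := by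
    intro h
    have h1 := hmin z hz
    rw [h, SimpleGraph.dist_self] at h1
    have h2 : T.dist r0 a = 0 := by omega
    have h3 : r0 = a := (hT.connected.dist_eq_zero_iff).1 h2
    exact hza (h.trans h3)
  have hz2 := hpar2 z hzr
  refine ⟨?_, by show T.dist r0 (par z) < T.dist r0 z; omega⟩
  -- descendants of z
  have hnota : ¬ ∃ j, par^[j] a = z := by
    rintro ⟨j, hj⟩
    cases j with
    | zero => exact hza hj.symm
    | succ j =>
      rw [Function.iterate_succ_apply] at hj
      by_cases ha0 : a = r0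
      · have h1 : ∀ j, par^[j] r0 = r0 := by
          intro j
          induction j with
          | zero => rfl
          | succ j ih => rw [Function.iterate_succ_apply, hpar1 r0 rfl, ih]
        rw [ha0, hpar1 r0 rfl, h1 j] at hj
        exact hzr hj.symm
      · have h1 := hle j (par a)
        rw [hj] at h1
        have h2 := (hpar2 a ha0).2
        have h3 := hmin z hz
        omega
  obtain ⟨p, hp⟩ := hconn z hz a haA
  have key : ∀ (u v : Fin n) (p : T.Walk u v), (∃ j, par^[j] u = z) →
      (¬ ∃ j, par^[j] v = z) → par z ∈ p.support := by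
    intro u v p
    induction p with
    | nil => intro h1 h2; exact absurd h1 h2
    | @cons u u1 v h p' ih =>
      intro h1 h2
      by_cases h3 : ∃ j, par^[j] u1 = z
      · exact List.mem_cons_of_mem _ (ih h3 h2)
      · have hu1 : u1 = par z := by
          rcases hT.dist_eq_dist_add_one_of_adj r0 h with h4 | h4
          · have hu0 : u ≠ r0 := by
              intro hh
              rw [hh, SimpleGraph.dist_self] at h4
              omega
            have h5 := hpar2 u hu0
            have h6 : u1 = par u := parent_unique hT r0 h h5.1 h4 h5.2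
            obtain ⟨j, hj⟩ := h1
            cases j with
            | zero =>
              have : u = z := hj
              rw [h6, this]
            | succ j =>
              rw [Function.iterate_succ_apply, ← h6] at hj
              exact absurd ⟨j, hj⟩ h3
          · have hu0 : u1 ≠ r0 := by
              intro hh
              rw [hh, SimpleGraph.dist_self] at h4
              omega
            have h5 := hpar2 u1 hu0
            have h6 : u = par u1 := parent_unique hT r0 h.symm h5.1 h4 h5.2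
            obtain ⟨j, hj⟩ := h1
            exfalso
            apply h3
            refine ⟨j + 1, ?_⟩
            rw [Function.iterate_succ_apply, ← h6]
            exact hj
        have h9 := p'.start_mem_support
        have h10 : par z ∈ p'.support := by rw [← hu1]; exact h9
        rw [SimpleGraph.Walk.support_cons]
        exact List.mem_cons_of_mem _ h10
  exact hp _ (key z a p ⟨0, rfl⟩ hnota)


section main

variable {V : Type} [DecidableEq V] {N : Type} [DecidableEq N]

/-- A subtree model on `A`, with induced matching number at most one at each point and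
cliques of size at most `w`. -/
structure Good (par : N → N) (rk : N → ℕ) (G : SimpleGraph V) (w : ℕ) (A : Finset V)
    (T : V → Finset N) : Prop where
  conn : ∀ v ∈ A, Conn par rk (T v)
  adj : ∀ u ∈ A, ∀ v ∈ A, G.Adj u v → (T u ∩ T v).Nonempty
  mu : ∀ i : N, ∀ S : Finset V, S ⊆ A →
    (∀ v ∈ S, ∃! u : V, u ∈ S ∧ G.Adj v u) →
    (∀ v ∈ S, ∃ u ∈ S, G.Adj v u ∧ (i ∈ T v ∨ i ∈ T u)) → S.card ≤ 2
  cl : ∀ s : Finset V, s ⊆ A → G.IsClique (s : Set V) → s.card ≤ w

variable {par : N → N} {rk : N → ℕ} {G : SimpleGraph V}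

theorem Good.sub {w : ℕ} {A B : Finset V} {T : V → Finset N} (h : Good par rk G w A T)
    (hB : B ⊆ A) : Good par rk G w B T :=
  ⟨fun v hv => h.conn v (hB hv), fun u hu v hv => h.adj u (hB hu) v (hB hv),
    fun i S hS => h.mu i S (hS.trans hB), fun s hs => h.cl s (hs.trans hB)⟩

theorem Good.four {w : ℕ} {A : Finset V} {T : V → Finset N} (h : Good par rk G w A T)
    {a b c d : V} (ha : a ∈ A) (hb : b ∈ A) (hc : c ∈ A) (hd : d ∈ A)
    (hab : G.Adj a b) (hcd : G.Adj c d) (hac : ¬ G.Adj a c) (had : ¬ G.Adj a d)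
    (hbc : ¬ G.Adj b c) (hbd : ¬ G.Adj b d) {i : N} (hi : i ∈ T a ∨ i ∈ T b)
    (hj : i ∈ T c ∨ i ∈ T d) : False := by
  classical
  have n1 : a ≠ b := G.ne_of_adj hab
  have n2 : c ≠ d := G.ne_of_adj hcd
  have n3 : a ≠ c := fun e => had (by rw [e]; exact hcd)
  have n4 : a ≠ d := fun e => hac (by rw [e]; exact hcd.symm)
  have n5 : b ≠ c := fun e => hbd (by rw [e]; exact hcd)
  have n6 : b ≠ d := fun e => hbc (by rw [e]; exact hcd.symm)
  have hba := hab.symm
  have hdc := hcd.symm
  have hca : ¬ G.Adj c a := fun h => hac h.symm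
  have hda : ¬ G.Adj d a := fun h => had h.symm
  have hcb : ¬ G.Adj c b := fun h => hbc h.symm
  have hdb : ¬ G.Adj d b := fun h => hbd h.symm
  have key := h.mu i {a, b, c, d} ?_ ?_ ?_
  · have hcard : ({a, b, c, d} : Finset V).card = 4 := by
      rw [Finset.card_insert_of_notMem (by simp [n1, n3, n4]),
        Finset.card_insert_of_notMem (by simp [n5, n6]), Finset.card_pair n2]
    omega
  · intro z hz
    simp only [Finset.mem_insert, Finset.mem_singleton] at hz
    rcases hz with h1 | h1 | h1 | h1 <;> rw [h1] <;> assumption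
  · intro z hz
    simp only [Finset.mem_insert, Finset.mem_singleton] at hz
    rcases hz with h1 | h1 | h1 | h1
    · rw [h1]
      refine ⟨b, ⟨by simp, hab⟩, ?_⟩
      rintro y ⟨hy, hay⟩
      simp only [Finset.mem_insert, Finset.mem_singleton] at hy
      rcases hy with h2 | h2 | h2 | h2
      · rw [h2] at hay; exact absurd hay (G.irrefl)
      · exact h2
      · rw [h2] at hay; exact absurd hay hac
      · rw [h2] at hay; exact absurd hay had
    · rw [h1]
      refine ⟨a, ⟨by simp, hba⟩, ?_⟩
      rintro y ⟨hy, hay⟩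
      simp only [Finset.mem_insert, Finset.mem_singleton] at hy
      rcases hy with h2 | h2 | h2 | h2
      · exact h2
      · rw [h2] at hay; exact absurd hay (G.irrefl)
      · rw [h2] at hay; exact absurd hay hbc
      · rw [h2] at hay; exact absurd hay hbd
    · rw [h1]
      refine ⟨d, ⟨by simp, hcd⟩, ?_⟩
      rintro y ⟨hy, hay⟩
      simp only [Finset.mem_insert, Finset.mem_singleton] at hy
      rcases hy with h2 | h2 | h2 | h2
      · rw [h2] at hay; exact absurd hay hca
      · rw [h2] at hay; exact absurd hay hcb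
      · rw [h2] at hay; exact absurd hay (G.irrefl)
      · exact h2
    · rw [h1]
      refine ⟨c, ⟨by simp, hdc⟩, ?_⟩
      rintro y ⟨hy, hay⟩
      simp only [Finset.mem_insert, Finset.mem_singleton] at hy
      rcases hy with h2 | h2 | h2 | h2
      · rw [h2] at hay; exact absurd hay hda
      · rw [h2] at hay; exact absurd hay hdb
      · exact h2
      · rw [h2] at hay; exact absurd hay (G.irrefl)
  · intro z hz
    simp only [Finset.mem_insert, Finset.mem_singleton] at hz
    rcases hz with h1 | h1 | h1 | h1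
    · rw [h1]; exact ⟨b, by simp, hab, hi⟩
    · rw [h1]; exact ⟨a, by simp, hba, hi.symm⟩
    · rw [h1]; exact ⟨d, by simp, hcd, hj⟩
    · rw [h1]; exact ⟨c, by simp, hdc, hj.symm⟩

/-- No subtree can be shrunk by intersecting it with another one. -/
def Red (G : SimpleGraph V) (A : Finset V) (T : V → Finset N) : Prop :=
  ∀ x ∈ A, ∀ y ∈ A, (T x ∩ T y).Nonempty →
    (∀ q ∈ A, G.Adj x q → (T q ∩ T y).Nonempty) → T x ⊆ T y

theorem reduce {w : ℕ} {A : Finset V} {T : V → Finset N} (h : Good par rk G w A T) :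
    ∃ T' : V → Finset N, Good par rk G w A T' ∧ Red G A T' := by
  classical
  induction hn : ∑ v ∈ A, (T v).card using Nat.strong_induction_on generalizing T with
  | _ n ih =>
    by_cases hred : Red G A T
    · exact ⟨T, h, hred⟩
    · unfold Red at hred
      push Not at hred
      obtain ⟨x, hx, y, hy, hxy, hq, hns⟩ := hred
      have hTle : ∀ v, Function.update T x (T x ∩ T y) v ⊆ T v := by
        intro v
        by_cases hvx : v = x
        · rw [hvx, Function.update_self]; exact Finset.inter_subset_left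
        · rw [Function.update_of_ne hvx]
      refine ih (∑ v ∈ A, (Function.update T x (T x ∩ T y) v).card) ?_ ?_ rfl
      · rw [← hn]
        apply Finset.sum_lt_sum
        · intro v _
          exact Finset.card_le_card (hTle v)
        · refine ⟨x, hx, ?_⟩
          rw [Function.update_self]
          apply Finset.card_lt_card
          refine ⟨Finset.inter_subset_left, ?_⟩
          intro hh
          exact hns (fun z hz => (Finset.mem_inter.1 (hh hz)).2)
      · have hadj : ∀ v ∈ A, G.Adj x v → ((T x ∩ T y) ∩ T v).Nonempty := by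
          intro v hv hxv
          have h1 := hq v hv hxv
          rw [Finset.inter_comm] at h1
          obtain ⟨z, hz1, hz2, hz3⟩ := helly (h.conn x hx) (h.conn y hy) (h.conn v hv) hxy h1
            (h.adj x hx v hv hxv)
          exact ⟨z, Finset.mem_inter.2 ⟨Finset.mem_inter.2 ⟨hz1, hz2⟩, hz3⟩⟩
        refine ⟨?_, ?_, ?_, h.cl⟩
        · intro v hv
          by_cases hvx : v = x
          · rw [hvx, Function.update_self]
            exact Conn.inter (h.conn x hx) (h.conn y hy) hxy
          · rw [Function.update_of_ne hvx]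
            exact h.conn v hv
        · intro u hu v hv huv
          by_cases hux : u = x
          · have hvx : v ≠ x := fun e => G.ne_of_adj huv (hux.trans e.symm)
            rw [hux, Function.update_self, Function.update_of_ne hvx]
            rw [hux] at huv
            exact hadj v hv huv
          · by_cases hvx : v = x
            · rw [hvx, Function.update_self, Function.update_of_ne hux, Finset.inter_comm]
              rw [hvx] at huv
              exact hadj u hu huv.symm
            · rw [Function.update_of_ne hux, Function.update_of_ne hvx]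
              exact h.adj u hu v hv huv
        · intro i S hS h1 h2
          apply h.mu i S hS h1
          intro v hv
          obtain ⟨u, hu, huv, hor⟩ := h2 v hv
          refine ⟨u, hu, huv, ?_⟩
          rcases hor with h3 | h3
          · exact Or.inl (hTle v h3)
          · exact Or.inr (hTle u h3)

theorem nested {w : ℕ} {A : Finset V} {T : V → Finset N} (h : Good par rk G w A T)
    (hred : Red G A T) {x y : V} (hx : x ∈ A) (hy : y ∈ A) (hxy : ¬ G.Adj x y)
    (hm : (T x ∩ T y).Nonempty) : T x ⊆ T y ∨ T y ⊆ T x := by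
  classical
  by_contra hcon
  push Not at hcon
  obtain ⟨h1, h2⟩ := hcon
  have hp : ∃ p ∈ A, G.Adj x p ∧ ¬ (T p ∩ T y).Nonempty := by
    by_contra hh
    push Not at hh
    exact h1 (hred x hx y hy hm (fun q hq hxq => hh q hq hxq))
  have hm' : (T y ∩ T x).Nonempty := by rw [Finset.inter_comm]; exact hm
  have hq : ∃ q ∈ A, G.Adj y q ∧ ¬ (T q ∩ T x).Nonempty := by
    by_contra hh
    push Not at hh
    exact h2 (hred y hy x hx hm' (fun q hq hxq => hh q hq hxq))
  obtain ⟨p, hpA, hxp, hpy⟩ := hp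
  obtain ⟨q, hqA, hyq, hqx⟩ := hq
  have hpq : ¬ (T p ∩ T q).Nonempty :=
    noC4 (h.conn x hx) (h.conn y hy) (h.conn p hpA) (h.conn q hqA) hm (h.adj x hx p hpA hxp)
      (h.adj y hy q hqA hyq) hpy hqx
  obtain ⟨i, hi⟩ := hm
  obtain ⟨hi1, hi2⟩ := Finset.mem_inter.1 hi
  exact h.four hx hpA hy hqA hxp hyq hxy
    (fun hh => hqx (h.adj q hqA x hx hh.symm))
    (fun hh => hpy (h.adj p hpA y hy hh))
    (fun hh => hpq (h.adj p hpA q hqA hh)) (Or.inl hi1) (Or.inl hi2)

/-- `Q` is a clique of size `w` inside `A`. -/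
def IsK (G : SimpleGraph V) (A : Finset V) (w : ℕ) (Q : Finset V) : Prop :=
  Q ⊆ A ∧ G.IsClique (Q : Set V) ∧ Q.card = w

theorem pivot {w : ℕ} {A : Finset V} {T : V → Finset N} (h : Good par rk G (w + 1) A T)
    {v : V} {K : Finset V} (hK : IsK G A (w + 1) K) (hv : v ∈ K) (S : Finset V) (hSA : S ⊆ A)
    (hS : ∀ x ∈ S, ¬ G.Adj x v ∧ T x ⊆ T v) :
    Col G S (w + 1) := by
  classical
  obtain ⟨hKA, hKc, hKw⟩ := hK
  set B : Finset V := S.filter (fun x => ∀ u ∈ K.erase v, G.Adj x u) with hB
  have hcov : S ⊆ B ∪ (K.erase v).biUnion (fun u => S.filter (fun x => ¬ G.Adj x u)) := by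
    intro x hx
    by_cases hxB : ∀ u ∈ K.erase v, G.Adj x u
    · exact Finset.mem_union_left _ (Finset.mem_filter.2 ⟨hx, hxB⟩)
    · push Not at hxB
      obtain ⟨u, hu, hxu⟩ := hxB
      exact Finset.mem_union_right _
        (Finset.mem_biUnion.2 ⟨u, hu, Finset.mem_filter.2 ⟨hx, hxu⟩⟩)
  have hBcol : Col G B 1 := by
    apply Col.indep
    intro x hx y hy hxy
    have hx' := Finset.mem_filter.1 hx
    have hy' := Finset.mem_filter.1 hy
    have hyK : y ∉ K.erase v := fun hyK => G.irrefl (hy'.2 y hyK)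
    have hxK : x ∉ insert y (K.erase v) := by
      intro hh
      rcases Finset.mem_insert.1 hh with h1 | h1
      · exact G.ne_of_adj hxy h1
      · exact G.irrefl (hx'.2 x h1)
    have hcard : (insert x (insert y (K.erase v))).card = w + 2 := by
      rw [Finset.card_insert_of_notMem hxK, Finset.card_insert_of_notMem hyK,
        Finset.card_erase_of_mem hv, hKw]
      omega
    have hsub : insert x (insert y (K.erase v)) ⊆ A := by
      intro z hz
      rcases Finset.mem_insert.1 hz with h1 | h1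
      · rw [h1]; exact hSA hx'.1
      · rcases Finset.mem_insert.1 h1 with h2 | h2
        · rw [h2]; exact hSA hy'.1
        · exact hKA (Finset.mem_of_mem_erase h2)
    have hcl : G.IsClique ((insert x (insert y (K.erase v)) : Finset V) : Set V) := by
      rw [Finset.coe_insert, Finset.coe_insert, SimpleGraph.isClique_insert,
        SimpleGraph.isClique_insert]
      refine ⟨⟨?_, ?_⟩, ?_⟩
      · exact hKc.subset (by intro z hz; exact Finset.mem_of_mem_erase (Finset.mem_coe.1 hz))
      · intro z hz _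
        exact hy'.2 z (Finset.mem_coe.1 hz)
      · intro z hz _
        rcases hz with h1 | h1
        · rw [h1]; exact hxy
        · exact hx'.2 z (Finset.mem_coe.1 h1)
    have := h.cl _ hsub hcl
    omega
  have hAcol : ∀ u ∈ K.erase v, Col G (S.filter (fun x => ¬ G.Adj x u)) 1 := by
    intro u hu
    have huK : u ∈ K := Finset.mem_of_mem_erase hu
    have huv : u ≠ v := Finset.ne_of_mem_erase hu
    have hadj : G.Adj u v := hKc (Finset.mem_coe.2 huK) (Finset.mem_coe.2 hv) huv
    have hvA : v ∈ A := hKA hv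
    have huA : u ∈ A := hKA huK
    apply Col.indep
    intro x hx y hy hxy
    obtain ⟨hxS, hxu⟩ := Finset.mem_filter.1 hx
    obtain ⟨hyS, hyu⟩ := Finset.mem_filter.1 hy
    obtain ⟨i, hi⟩ := h.adj x (hSA hxS) y (hSA hyS) hxy
    obtain ⟨hi1, hi2⟩ := Finset.mem_inter.1 hi
    exact h.four (hSA hxS) (hSA hyS) huA hvA hxy hadj hxu (hS x hxS).1 hyu (hS y hyS).1
      (Or.inl hi1) (Or.inr ((hS x hxS).2 hi1))
  have h1 := Col.biUnion (K.erase v) (fun u => S.filter (fun x => ¬ G.Adj x u)) 1 hAcol
  have h2 := hBcol.union h1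
  rw [Finset.card_erase_of_mem hv, hKw] at h2
  exact h2.mono hcov (by omega)

/-- Colouring pairwise intersecting subtrees with few colours. -/
theorem colourM {w : ℕ} {A : Finset V} {T : V → Finset N} (h : Good par rk G (w + 1) A T) :
    ∀ (n : ℕ) (M : Finset V), M.card = n → M ⊆ A →
      (∀ m ∈ M, ∀ m' ∈ M, m ≠ m' → (T m ∩ T m').Nonempty → G.Adj m m') →
      ∃ f : V → ℕ, (∀ m, f m < w + 1) ∧
        ∀ m ∈ M, ∀ m' ∈ M, m ≠ m' → (T m ∩ T m').Nonempty → f m ≠ f m' := by
  classical
  intro n
  induction n with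
  | zero =>
    intro M hM _ _
    rw [Finset.card_eq_zero] at hM
    rw [hM]
    exact ⟨fun _ => 0, fun _ => Nat.succ_pos w, by simp⟩
  | succ n ih =>
    intro M hM hMA hadj
    have hne : M.Nonempty := Finset.card_pos.1 (by omega)
    obtain ⟨m, hm, a, ham, hlast⟩ := exists_last M hne T (fun m hm => h.conn m (hMA hm))
    obtain ⟨f, hf1, hf2⟩ := ih (M.erase m) (by rw [Finset.card_erase_of_mem hm]; omega)
      ((Finset.erase_subset _ _).trans hMA)
      (fun x hx y hy => hadj x (Finset.mem_of_mem_erase hx) y (Finset.mem_of_mem_erase hy))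
    set L : Finset V := (M.erase m).filter (fun m' => (T m ∩ T m').Nonempty) with hL
    have hLm : m ∉ L := fun hh => Finset.notMem_erase m M (Finset.mem_filter.1 hh).1
    have hLM : ∀ x ∈ L, x ∈ M ∧ x ≠ m ∧ (T m ∩ T x).Nonempty ∧ a ∈ T x := by
      intro x hx
      obtain ⟨h1, h2⟩ := Finset.mem_filter.1 hx
      have h3 := Finset.mem_of_mem_erase h1
      exact ⟨h3, Finset.ne_of_mem_erase h1, h2, hlast x h3 h2⟩
    have hcl : G.IsClique ((insert m L : Finset V) : Set V) := by
      rw [Finset.coe_insert, SimpleGraph.isClique_insert]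
      refine ⟨?_, ?_⟩
      · intro x hx y hy hxy
        obtain ⟨h1, -, -, h2⟩ := hLM x (Finset.mem_coe.1 hx)
        obtain ⟨h3, -, -, h4⟩ := hLM y (Finset.mem_coe.1 hy)
        exact hadj x h1 y h3 hxy ⟨a, Finset.mem_inter.2 ⟨h2, h4⟩⟩
      · intro x hx hmx
        obtain ⟨h1, -, h2, -⟩ := hLM x (Finset.mem_coe.1 hx)
        exact hadj m hm x h1 hmx h2
    have hcard := h.cl (insert m L) (by
      intro z hz
      rcases Finset.mem_insert.1 hz with h1 | h1
      · rw [h1]; exact hMA hm
      · exact hMA (hLM z h1).1) hcl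
    rw [Finset.card_insert_of_notMem hLm] at hcard
    have hex : ∃ c ∈ Finset.range (w + 1), c ∉ L.image f := by
      by_contra hcon
      push Not at hcon
      have h1 : Finset.range (w + 1) ⊆ L.image f := hcon
      have h2 := Finset.card_le_card h1
      rw [Finset.card_range] at h2
      have h3 : (L.image f).card ≤ L.card := Finset.card_image_le
      omega
    obtain ⟨c, hc, hcL⟩ := hex
    have hcf : ∀ x ∈ L, f x ≠ c := fun x hx e => hcL (Finset.mem_image.2 ⟨x, hx, e⟩)
    refine ⟨Function.update f m c, ?_, ?_⟩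
    · intro x
      by_cases hxm : x = m
      · rw [hxm, Function.update_self]; exact Finset.mem_range.1 hc
      · rw [Function.update_of_ne hxm]; exact hf1 x
    · intro x hx y hy hxy hmeet
      by_cases hxm : x = m
      · have hym : y ≠ m := fun e => hxy (hxm.trans e.symm)
        rw [hxm, Function.update_self, Function.update_of_ne hym]
        rw [hxm] at hmeet
        exact (hcf y (Finset.mem_filter.2 ⟨Finset.mem_erase.2 ⟨hym, hy⟩, hmeet⟩)).symm
      · by_cases hym : y = m
        · rw [hym, Function.update_self, Function.update_of_ne hxm]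
          rw [hym, Finset.inter_comm] at hmeet
          exact hcf x (Finset.mem_filter.2 ⟨Finset.mem_erase.2 ⟨hxm, hx⟩, hmeet⟩)
        · rw [Function.update_of_ne hxm, Function.update_of_ne hym]
          exact hf2 x (Finset.mem_erase.2 ⟨hxm, hx⟩) y (Finset.mem_erase.2 ⟨hym, hy⟩) hxy hmeet

theorem exists_min_card {V : Type} (W : Finset V) (P : Finset V → Prop) (hP : P W) :
    ∃ M ⊆ W, P M ∧ ∀ M' ⊆ W, P M' → M.card ≤ M'.card := by
  classical
  obtain ⟨M, hM, hmin⟩ := Finset.exists_min_image (W.powerset.filter P) Finset.card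
    ⟨W, Finset.mem_filter.2 ⟨Finset.mem_powerset.2 (Finset.Subset.refl _), hP⟩⟩
  obtain ⟨h1, h2⟩ := Finset.mem_filter.1 hM
  exact ⟨M, Finset.mem_powerset.1 h1, h2, fun M' hM' hP' =>
    hmin M' (Finset.mem_filter.2 ⟨Finset.mem_powerset.2 hM', hP'⟩)⟩

theorem step {w b : ℕ} {A : Finset V} {T : V → Finset N} (h : Good par rk G (w + 1) A T)
    (hred : Red G A T)
    (IHw : ∀ (A' : Finset V) (T' : V → Finset N), Good par rk G w A' T' → Col G A' b) :
    Col G A ((w + 1) * (w + 1) + b) := by
  classical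
  set W : Finset V := A.filter (fun x => ∃ Q, IsK G A (w + 1) Q ∧ x ∈ Q) with hW
  have hWA : W ⊆ A := Finset.filter_subset _ _
  have hWK : ∀ x ∈ W, ∃ Q, IsK G A (w + 1) Q ∧ x ∈ Q := fun x hx => (Finset.mem_filter.1 hx).2
  have hneT : ∀ x ∈ A, (T x).Nonempty := by
    intro x hx
    obtain ⟨a, ha, -⟩ := h.conn x hx
    exact ⟨a, ha⟩
  -- a smallest covering family
  obtain ⟨M, hMW, hcov, hmin⟩ := exists_min_card W (fun M => ∀ x ∈ W, ∃ m ∈ M, T x ⊆ T m)
    (fun x hx => ⟨x, hx, Finset.Subset.refl _⟩)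
  have hanti : ∀ m ∈ M, ∀ m' ∈ M, m ≠ m' → ¬ T m ⊆ T m' := by
    intro m hm m' hm' hne hsub
    have h1 := hmin (M.erase m) ((Finset.erase_subset _ _).trans hMW) (by
        intro x hx
        obtain ⟨m1, hm1, hs⟩ := hcov x hx
        by_cases he : m1 = m
        · rw [he] at hs
          exact ⟨m', Finset.mem_erase.2 ⟨hne.symm, hm'⟩, hs.trans hsub⟩
        · exact ⟨m1, Finset.mem_erase.2 ⟨he, hm1⟩, hs⟩)
    rw [Finset.card_erase_of_mem hm] at h1
    have : 0 < M.card := Finset.card_pos.2 ⟨m, hm⟩
    omega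
  have hMadj : ∀ m ∈ M, ∀ m' ∈ M, m ≠ m' → (T m ∩ T m').Nonempty → G.Adj m m' := by
    intro m hm m' hm' hne hmeet
    by_contra hna
    rcases nested h hred (hWA (hMW hm)) (hWA (hMW hm')) hna hmeet with h1 | h1
    · exact hanti m hm m' hm' hne h1
    · exact hanti m' hm' m hm hne.symm h1
  obtain ⟨f, hf1, hf2⟩ := colourM h M.card M rfl (hMW.trans hWA) hMadj
  -- the sets to be coloured
  let S : V → Finset V := fun m => insert m (A.filter (fun x => ¬ G.Adj x m ∧ T x ⊆ T m))
  have hST : ∀ m ∈ M, ∀ x ∈ S m, x ∈ A ∧ T x ⊆ T m := by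
    intro m hm x hx
    rcases Finset.mem_insert.1 hx with h1 | h1
    · rw [h1]; exact ⟨hWA (hMW hm), Finset.Subset.refl _⟩
    · have h2 := Finset.mem_filter.1 h1
      exact ⟨h2.1, h2.2.2⟩
  have hScol : ∀ m ∈ M, Col G (S m) (w + 1) := by
    intro m hm
    obtain ⟨K, hK, hmK⟩ := hWK m (hMW hm)
    have hp := pivot h hK hmK (A.filter (fun x => ¬ G.Adj x m ∧ T x ⊆ T m))
      (Finset.filter_subset _ _) (fun x hx => (Finset.mem_filter.1 hx).2)
    exact Col.insertIso (by omega) hp (fun x hx => (Finset.mem_filter.1 hx).2.1)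
  have hc : ∀ m, ∃ c : V → ℕ, m ∈ M → (∀ v ∈ S m, c v < w + 1) ∧
      ∀ u ∈ S m, ∀ v ∈ S m, G.Adj u v → c u ≠ c v := by
    intro m
    by_cases hm : m ∈ M
    · obtain ⟨c, hc1, hc2⟩ := hScol m hm
      exact ⟨c, fun _ => ⟨hc1, hc2⟩⟩
    · exact ⟨fun _ => 0, fun hh => absurd hh hm⟩
  choose c hc using hc
  set U : Finset V := A.filter (fun x => ∃ m, m ∈ M ∧ x ∈ S m) with hU
  have hUcol : Col G U ((w + 1) * (w + 1)) := by
    let idx : V → V := fun x => if hx : ∃ m, m ∈ M ∧ x ∈ S m then hx.choose else x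
    have hidx : ∀ x ∈ U, idx x ∈ M ∧ x ∈ S (idx x) := by
      intro x hx
      have hx' := (Finset.mem_filter.1 hx).2
      have : idx x = hx'.choose := by simp only [idx]; rw [dif_pos hx']
      rw [this]
      exact hx'.choose_spec
    refine ⟨fun x => f (idx x) * (w + 1) + c (idx x) x, ?_, ?_⟩
    · intro x hx
      obtain ⟨i1, i2⟩ := hidx x hx
      have i3 := (hc (idx x) i1).1 x i2
      have i4 := hf1 (idx x)
      have i5 : (f (idx x) + 1) * (w + 1) ≤ (w + 1) * (w + 1) := Nat.mul_le_mul_right _ i4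
      rw [Nat.add_mul] at i5
      show f (idx x) * (w + 1) + c (idx x) x < (w + 1) * (w + 1)
      omega
    · intro x hx y hy hxy heq
      obtain ⟨i1, i2⟩ := hidx x hx
      obtain ⟨j1, j2⟩ := hidx y hy
      have i3 := (hc (idx x) i1).1 x i2
      have j3 := (hc (idx y) j1).1 y j2
      change f (idx x) * (w + 1) + c (idx x) x = f (idx y) * (w + 1) + c (idx y) y at heq
      have hff : f (idx x) = f (idx y) := by
        rcases Nat.lt_trichotomy (f (idx x)) (f (idx y)) with h7 | h7 | h7
        · have : (f (idx x) + 1) * (w + 1) ≤ f (idx y) * (w + 1) := Nat.mul_le_mul_right _ h7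
          rw [Nat.add_mul] at this
          omega
        · exact h7
        · have : (f (idx y) + 1) * (w + 1) ≤ f (idx x) * (w + 1) := Nat.mul_le_mul_right _ h7
          rw [Nat.add_mul] at this
          omega
      have hcc : c (idx x) x = c (idx y) y := by
        rw [hff] at heq
        omega
      by_cases hij : idx x = idx y
      · rw [hij] at hcc i2
        exact (hc (idx y) j1).2 x i2 y j2 hxy hcc
      · obtain ⟨hxA, hxs⟩ := hST _ i1 x i2
        obtain ⟨hyA, hys⟩ := hST _ j1 y j2
        obtain ⟨z, hz⟩ := h.adj x hxA y hyA hxy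
        obtain ⟨hz1, hz2⟩ := Finset.mem_inter.1 hz
        exact hf2 _ i1 _ j1 hij ⟨z, Finset.mem_inter.2 ⟨hxs hz1, hys hz2⟩⟩ hff
  have hrest : Col G (A \ U) b := by
    apply IHw _ T
    have hs := h.sub (B := A \ U) Finset.sdiff_subset
    refine ⟨hs.conn, hs.adj, hs.mu, ?_⟩
    intro Q hQ1 hQ2
    have hQ3 := hs.cl Q hQ1 hQ2
    by_contra hcon
    have hQK : IsK G A (w + 1) Q := ⟨hQ1.trans Finset.sdiff_subset, hQ2, by omega⟩
    have hnot : ∀ x ∈ Q, ∀ m ∈ M, x ∉ S m := by
      intro x hx m hm hxS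
      have h1 := Finset.mem_sdiff.1 (hQ1 hx)
      exact h1.2 (Finset.mem_filter.2 ⟨h1.1, m, hm, hxS⟩)
    have hQW : ∀ x ∈ Q, x ∈ W := fun x hx => Finset.mem_filter.2 ⟨hQK.1 hx, Q, hQK, hx⟩
    have hQne : Q.Nonempty := Finset.card_pos.1 (by omega)
    obtain ⟨x, hx⟩ := hQne
    obtain ⟨m, hm, hxm⟩ := hcov x (hQW x hx)
    have hmQ : m ∉ Q := fun hh => hnot m hh m hm (Finset.mem_insert_self _ _)
    have hex : ∃ y ∈ Q, ¬ G.Adj y m := by
      by_contra hh
      push Not at hh
      have hcl : G.IsClique ((insert m Q : Finset V) : Set V) := by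
        rw [Finset.coe_insert, SimpleGraph.isClique_insert]
        exact ⟨hQ2, fun z hz _ => (hh z (Finset.mem_coe.1 hz)).symm⟩
      have := h.cl (insert m Q) (by
        intro z hz
        rcases Finset.mem_insert.1 hz with h9 | h9
        · rw [h9]; exact hWA (hMW hm)
        · exact hQK.1 h9) hcl
      rw [Finset.card_insert_of_notMem hmQ] at this
      omega
    obtain ⟨y, hy, hym⟩ := hex
    have hmeet : (T y ∩ T m).Nonempty := by
      by_cases hyx : y = x
      · rw [hyx]
        obtain ⟨z, hz⟩ := hneT x (hQK.1 hx)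
        exact ⟨z, Finset.mem_inter.2 ⟨hz, hxm hz⟩⟩
      · obtain ⟨z, hz⟩ := h.adj y (hQK.1 hy) x (hQK.1 hx)
          (hQ2 (Finset.mem_coe.2 hy) (Finset.mem_coe.2 hx) hyx)
        obtain ⟨hz1, hz2⟩ := Finset.mem_inter.1 hz
        exact ⟨z, Finset.mem_inter.2 ⟨hz1, hxm hz2⟩⟩
    have hsub : T y ⊆ T m := by
      rcases nested h hred (hQK.1 hy) (hWA (hMW hm)) hym hmeet with h1 | h1
      · exact h1
      · obtain ⟨m2, hm2, hs2⟩ := hcov y (hQW y hy)
        by_cases he : m = m2
        · rw [he]; exact hs2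
        · exact absurd (h1.trans hs2) (hanti m hm m2 hm2 he)
    exact hnot y hy m hm (Finset.mem_insert_of_mem
      (Finset.mem_filter.2 ⟨hQK.1 hy, hym, hsub⟩))
  exact (hUcol.union hrest).mono (by
    intro x hx
    by_cases hxU : x ∈ U
    · exact Finset.mem_union_left _ hxU
    · exact Finset.mem_union_right _ (Finset.mem_sdiff.2 ⟨hx, hxU⟩)) le_rfl

theorem main (w : ℕ) : ∀ (A : Finset V) (T : V → Finset N), Good par rk G w A T →
    Col G A (∑ i ∈ Finset.range (w + 1), i ^ 2) := by
  classical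
  induction w with
  | zero =>
    intro A T h
    have hA : A = ∅ := by
      by_contra hA
      obtain ⟨v, hv⟩ := Finset.nonempty_iff_ne_empty.2 hA
      have := h.cl {v} (by simpa using hv) (by simp)
      simp at this
    rw [hA]
    exact ⟨fun _ => 0, by simp, by simp⟩
  | succ w ihw =>
    intro A T h
    obtain ⟨T', hT', hred⟩ := reduce h
    have := step hT' hred ihw
    refine this.mono (Finset.Subset.refl _) ?_
    rw [Finset.sum_range_succ _ (w + 1)]
    have e : (w + 1) ^ 2 = (w + 1) * (w + 1) := sq (w + 1)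
    rw [e]
    omega

end main

/-- **Graphs of induced matching treewidth at most one are polynomially chi-bounded.** -/
theorem result (V : Type) [Fintype V] (G : SimpleGraph V) (h : HasTreeMuLe G 1) :
    G.chromaticNumber ≤ ((∑ i ∈ Finset.range (G.cliqueNum + 1), i ^ 2 : ℕ) : ℕ∞) := by
  classical
  obtain ⟨n, T, bag, hT, hcov, hedge, hint, hmu⟩ := h
  obtain ⟨par, rk, hconn⟩ := conn_of_tree hT
  let B : V → Finset (Fin n) := fun v => Finset.univ.filter (fun i => v ∈ bag i)
  have hmemB : ∀ v i, i ∈ B v ↔ v ∈ bag i := fun v i => by simp [B]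
  have hgood : Good par rk G G.cliqueNum Finset.univ B := by
    refine ⟨?_, ?_, ?_, ?_⟩
    · intro v _
      apply hconn (B v)
      · obtain ⟨i, hi⟩ := hcov v
        exact ⟨i, (hmemB v i).2 hi⟩
      · intro i hi j hj
        obtain ⟨p, hp⟩ := hint v i j ((hmemB v i).1 hi) ((hmemB v j).1 hj)
        exact ⟨p, fun x hx => (hmemB v x).2 (hp x hx)⟩
    · intro u _ v _ huv
      obtain ⟨i, hi1, hi2⟩ := hedge u v huv
      exact ⟨i, Finset.mem_inter.2 ⟨(hmemB u i).2 hi1, (hmemB v i).2 hi2⟩⟩
    · intro i S _ hS1 hS2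
      have := hmu i S hS1 (by
        intro v hv
        obtain ⟨u, hu, huv, hor⟩ := hS2 v hv
        refine ⟨u, hu, huv, ?_⟩
        rcases hor with h1 | h1
        · exact Or.inl ((hmemB v i).1 h1)
        · exact Or.inr ((hmemB u i).1 h1))
      omega
    · intro s _ hs
      exact SimpleGraph.IsClique.card_le_cliqueNum (tc := hs)
  obtain ⟨c, hc1, hc2⟩ := main (G := G) G.cliqueNum Finset.univ B hgood
  have hcolor : G.Colorable (∑ i ∈ Finset.range (G.cliqueNum + 1), i ^ 2) :=
    ⟨SimpleGraph.Coloring.mk (fun v => (⟨c v, hc1 v (Finset.mem_univ v)⟩ : Fin _)) (by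
      intro u v huv heq
      exact hc2 u (Finset.mem_univ u) v (Finset.mem_univ v) huv (by
        simpa using congrArg Fin.val heq))⟩
  exact hcolor.chromaticNumber_le

end Pool.Agent.T6.H76.TreeMu.TreeMuOne
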